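import Pool.Agent.Helper97.Tns.Goals

/-!
PHI1: covariance of the apolar pairing with the powers of the determinant.
-/

open MvPolynomial
open Pool.Agent.Helper97.Tns

namespace Pool.Agent.Helper22.Tns

section Pairing

variable {σ : Type*}

/-- The factorial of an exponent. -/
noncomputable def mf (m : σ →₀ ℕ) : ℂ := m.prod fun _ k => (k.factorial : ℂ)

/-- The apolar pairing. -/
noncomputable def pr (F G : MvPolynomial σ ℂ) : ℂ :=
  ∑ m ∈ G.support, mf m * coeff m G * coeff m F

theorem pr_eq (F G : MvPolynomial σ ℂ) (S : Finset (σ →₀ ℕ)) (hS : G.support ⊆ S) :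
    pr F G = ∑ m ∈ S, mf m * coeff m G * coeff m F := by
  unfold pr
  refine Finset.sum_subset hS fun m _ hm => ?_
  rw [notMem_support_iff.1 hm]
  ring

theorem pr_comm (F G : MvPolynomial σ ℂ) : pr F G = pr G F := by
  classical
  rw [pr_eq F G (F.support ∪ G.support) Finset.subset_union_right,
    pr_eq G F (F.support ∪ G.support) Finset.subset_union_left]
  exact Finset.sum_congr rfl fun m _ => by ring

theorem pr_add (F F' G : MvPolynomial σ ℂ) : pr (F + F') G = pr F G + pr F' G := by
  simp [pr, mul_add, Finset.sum_add_distrib]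

theorem pr_smul (c : ℂ) (F G : MvPolynomial σ ℂ) : pr (C c * F) G = c * pr F G := by
  simp only [pr, coeff_C_mul, Finset.mul_sum]
  exact Finset.sum_congr rfl fun m _ => by ring

theorem pr_smul_right (c : ℂ) (F G : MvPolynomial σ ℂ) : pr F (C c * G) = c * pr F G := by
  rw [pr_comm, pr_smul, pr_comm]

theorem pr_sum {ι : Type*} (s : Finset ι) (f : ι → MvPolynomial σ ℂ) (G : MvPolynomial σ ℂ) :
    pr (∑ i ∈ s, f i) G = ∑ i ∈ s, pr (f i) G := by
  classical
  induction s using Finset.induction_on with
  | empty => simp [pr]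
  | insert a s ha ih => rw [Finset.sum_insert ha, Finset.sum_insert ha, pr_add, ih]

theorem pr_sum_right {ι : Type*} (s : Finset ι) (f : ι → MvPolynomial σ ℂ)
    (G : MvPolynomial σ ℂ) : pr G (∑ i ∈ s, f i) = ∑ i ∈ s, pr G (f i) := by
  rw [pr_comm, pr_sum]
  exact Finset.sum_congr rfl fun i _ => pr_comm _ _

theorem pr_monomial (m : σ →₀ ℕ) (a : ℂ) (G : MvPolynomial σ ℂ) :
    pr (monomial m a) G = mf m * a * coeff m G := by
  classical
  rw [pr_comm, pr_eq G (monomial m a) {m} support_monomial_subset]
  simp

theorem mf_succ (m : σ →₀ ℕ) (p : σ) :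
    mf (m + Finsupp.single p 1) = mf m * (m p + 1) := by
  classical
  unfold mf
  rw [Finsupp.prod_of_support_subset (s := insert p m.support) (m + Finsupp.single p 1)
      (by
        intro q hq
        rw [Finset.mem_insert, Finsupp.mem_support_iff]
        rw [Finsupp.mem_support_iff] at hq
        by_cases h : q = p
        · exact Or.inl h
        · right
          intro h0
          apply hq
          rw [Finsupp.add_apply, h0, Finsupp.single_apply, if_neg (fun h' => h h'.symm)]
          rfl)
      _ (by simp),
    Finsupp.prod_of_support_subset (s := insert p m.support) m (Finset.subset_insert _ _) _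
      (by simp)]
  rw [← Finset.mul_prod_erase _ _ (Finset.mem_insert_self p m.support),
    ← Finset.mul_prod_erase (insert p m.support) (fun i => ((m i).factorial : ℂ))
      (Finset.mem_insert_self p m.support)]
  have h1 : ∀ q ∈ (insert p m.support).erase p,
      ((((m + Finsupp.single p 1 : σ →₀ ℕ) q).factorial : ℕ) : ℂ) = ((m q).factorial : ℂ) := by
    intro q hq
    have hqp : q ≠ p := (Finset.mem_erase.1 hq).1
    rw [Finsupp.add_apply, Finsupp.single_apply, if_neg (fun h' => hqp h'.symm), add_zero]
  rw [Finset.prod_congr rfl h1]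
  have h2 : (m + Finsupp.single p 1 : σ →₀ ℕ) p = m p + 1 := by simp
  rw [h2, Nat.factorial_succ]
  push_cast
  ring

theorem coeff_pderiv' (m : σ →₀ ℕ) (p : σ) (G : MvPolynomial σ ℂ) :
    coeff m (pderiv p G) = (m p + 1) * coeff (m + Finsupp.single p 1) G := by
  classical
  induction G using MvPolynomial.induction_on' with
  | monomial u a =>
    rw [pderiv_monomial, coeff_monomial, coeff_monomial]
    by_cases h : u = m + Finsupp.single p 1
    · subst h
      rw [if_pos (by rw [add_tsub_cancel_right]), if_pos rfl]
      simp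
      ring
    · rw [if_neg h]
      by_cases h0 : u p = 0
      · simp [h0]
      · rw [if_neg]
        · simp
        · intro h1
          apply h
          rw [← h1, tsub_add_cancel_of_le]
          rw [Finsupp.single_le_iff]
          omega
  | add f g hf hg =>
    rw [map_add, coeff_add, coeff_add, hf, hg]
    ring

theorem pr_mul_X (F G : MvPolynomial σ ℂ) (p : σ) : pr (F * X p) G = pr F (pderiv p G) := by
  induction F using MvPolynomial.induction_on' with
  | monomial u a =>
    have h : monomial u a * X p = monomial (u + Finsupp.single p 1) a := by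
      rw [X, monomial_mul, mul_one]
    rw [h, pr_monomial, pr_monomial, coeff_pderiv', mf_succ]
    ring
  | add f g hf hg => rw [add_mul, pr_add, pr_add, hf, hg]

theorem pderiv_alg [Fintype σ] (φ : MvPolynomial σ ℂ →ₐ[ℂ] MvPolynomial σ ℂ) (p : σ)
    (G : MvPolynomial σ ℂ) :
    pderiv p (φ G) = ∑ q, pderiv p (φ (X q)) * φ (pderiv q G) := by
  classical
  induction G using MvPolynomial.induction_on with
  | C a =>
    have h : φ (C a) = C a := by
      rw [← MvPolynomial.algebraMap_eq]
      exact AlgHom.commutes φ a
    rw [h]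
    simp
  | add f g hf hg =>
    rw [map_add, map_add, hf, hg, ← Finset.sum_add_distrib]
    refine Finset.sum_congr rfl fun q _ => ?_
    rw [map_add, map_add]
    ring
  | mul_X f r hf =>
    rw [map_mul, Derivation.leibniz, hf]
    simp only [Derivation.leibniz, smul_eq_mul, map_add, map_mul, mul_add,
      Finset.sum_add_distrib, Finset.mul_sum]
    congr 1
    · rw [Finset.sum_eq_single r]
      · simp
        ring
      · intro q _ hq
        rw [pderiv_X_of_ne (fun h => hq h.symm)]
        simp
      · intro h
        exact absurd (Finset.mem_univ r) h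
    · exact Finset.sum_congr rfl fun q _ => by ring

end Pairing

theorem subst_X {n : ℕ} (A : Matrix (Fin n) (Fin n) ℂ) (i j : Fin n) :
    subst A (X (i, j)) = ∑ k, C (A i k) * X (k, j) := by
  simp [subst]

theorem subst_C {n : ℕ} (A : Matrix (Fin n) (Fin n) ℂ) (a : ℂ) :
    subst A (C a) = C a := by
  rw [← MvPolynomial.algebraMap_eq]
  exact AlgHom.commutes _ a

theorem coeff_zero_subst {n : ℕ} (A : Matrix (Fin n) (Fin n) ℂ) (G : RR n) :
    coeff 0 (subst A G) = coeff 0 G := by
  change constantCoeff (subst A G) = constantCoeff G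
  induction G using MvPolynomial.induction_on with
  | C a => rw [subst_C]
  | add f g hf hg => rw [map_add, map_add, map_add, hf, hg]
  | mul_X f r hf =>
    rw [map_mul, map_mul, map_mul, hf]
    obtain ⟨i, j⟩ := r
    rw [subst_X]
    simp

theorem pderiv_subst {n : ℕ} (A : Matrix (Fin n) (Fin n) ℂ) (i j : Fin n) (G : RR n) :
    pderiv (i, j) (subst A.transpose G) =
      ∑ k, C (A i k) * subst A.transpose (pderiv (k, j) G) := by
  classical
  rw [pderiv_alg, Fintype.sum_prod_type]
  refine Finset.sum_congr rfl fun k _ => ?_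
  rw [Finset.sum_eq_single j]
  · rw [subst_X, map_sum, Finset.sum_eq_single i]
    · simp [pderiv_C_mul, Matrix.transpose_apply]
    · intro b _ hb
      rw [pderiv_C_mul, pderiv_X_of_ne (fun h => hb (by simpa using (congrArg Prod.fst h)))]
      simp
    · intro h
      exact absurd (Finset.mem_univ i) h
  · intro b _ hb
    rw [subst_X, map_sum, Finset.sum_eq_zero, zero_mul]
    intro l _
    rw [pderiv_C_mul, pderiv_X_of_ne (fun h => hb (by simpa using (congrArg Prod.snd h)))]
    simp
  · intro h
    exact absurd (Finset.mem_univ j) h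

theorem adjoint {n : ℕ} (A : Matrix (Fin n) (Fin n) ℂ) (F : RR n) :
    ∀ G : RR n, pr (subst A F) G = pr F (subst A.transpose G) := by
  induction F using MvPolynomial.induction_on with
  | C a =>
    intro G
    rw [subst_C]
    have h : (C a : RR n) = monomial 0 a := rfl
    rw [h, pr_monomial, pr_monomial, coeff_zero_subst]
  | add f g hf hg =>
    intro G
    rw [map_add, pr_add, pr_add, hf, hg]
  | mul_X f r hf =>
    intro G
    obtain ⟨i, j⟩ := r
    rw [map_mul, subst_X, pr_mul_X, pderiv_subst, pr_sum_right, Finset.mul_sum, pr_sum]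
    refine Finset.sum_congr rfl fun k _ => ?_
    rw [pr_smul_right, ← hf, ← pr_mul_X, ← pr_smul]
    congr 1
    ring

theorem subst_genD {n : ℕ} (B : Matrix (Fin n) (Fin n) ℂ) :
    subst B (genD n) = C B.det * genD n := by
  unfold genD
  have h1 : (C B.det : RR n) = ((C : ℂ →+* RR n).mapMatrix B).det := RingHom.map_det _ _
  rw [AlgHom.map_det, h1, ← Matrix.det_mul]
  have h2 : (subst B).mapMatrix (Matrix.mvPolynomialX (Fin n) (Fin n) ℂ) =
      (C : ℂ →+* RR n).mapMatrix B * Matrix.mvPolynomialX (Fin n) (Fin n) ℂ := by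
    ext1 i j
    rw [AlgHom.mapMatrix_apply, Matrix.map_apply, Matrix.mvPolynomialX_apply, subst_X,
      Matrix.mul_apply]
    refine Finset.sum_congr rfl fun k _ => ?_
    rw [RingHom.mapMatrix_apply, Matrix.map_apply, Matrix.mvPolynomialX_apply]
  rw [h2]

theorem phi1 : S_PHI1 := by
  intro n r A F
  have h1 : ∀ F : RR n, Phi n r F = pr F (genD n ^ r) := fun F => rfl
  rw [h1, h1, adjoint, map_pow, subst_genD, Matrix.det_transpose, mul_pow, ← map_pow,
    pr_smul_right]

end Pool.Agent.Helper22.Tns
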